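import Mathlib

/-!
Identities for the Poonen-Rains weights
`PR r = (prod_{j >= 0} (1 + 2^-j))^-1 * prod_{j = 1..r} 2 / (2^j - 1)`:
recursion, summability, total mass one, alternating sum zero, even and odd parts equal to 1/2,
numerical bounds.
-/

namespace Pool.PRD

open Finset Filter Topology

/-- The product `prod_{j >= 0} (1 + 2^-j)`. -/
noncomputable def eulerP : ℝ := ∏' j : ℕ, (1 + (1 / 2 : ℝ) ^ j)

/-- The unnormalised weights `prod_{j = 1..r} 2 / (2^j - 1)`. -/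
noncomputable def aw (r : ℕ) : ℝ := ∏ j ∈ range r, (2 / (2 ^ (j + 1) - 1) : ℝ)

/-- The Poonen-Rains weights. -/
noncomputable def PR (r : ℕ) : ℝ := eulerP⁻¹ * ∏ j ∈ range r, (2 / (2 ^ (j + 1) - 1) : ℝ)

theorem PR_eq (r : ℕ) : PR r = eulerP⁻¹ * aw r := rfl

theorem two_pow_sub_one_pos (r : ℕ) : (0 : ℝ) < 2 ^ (r + 1) - 1 := by
  have h : (1 : ℝ) < 2 ^ (r + 1) := one_lt_pow₀ (by norm_num) (by omega)
  linarith

@[simp] theorem aw_zero : aw 0 = 1 := by simp [aw]

theorem aw_succ (r : ℕ) : aw (r + 1) = aw r * (2 / (2 ^ (r + 1) - 1)) := by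
  simp only [aw, prod_range_succ]

theorem aw_pos (r : ℕ) : 0 < aw r := by
  unfold aw
  exact prod_pos fun j _ => div_pos (by norm_num) (two_pow_sub_one_pos j)

theorem aw_rec (r : ℕ) :
    (1 - (1 / 2 : ℝ) ^ (r + 1)) * aw (r + 1) = (1 / 2 : ℝ) ^ r * aw r := by
  have h := two_pow_sub_one_pos r
  rw [aw_succ]
  have e1 : (1 / 2 : ℝ) ^ (r + 1) = 1 / 2 ^ (r + 1) := by rw [one_div, inv_pow, one_div]
  have e2 : (1 / 2 : ℝ) ^ r = 1 / 2 ^ r := by rw [one_div, inv_pow, one_div]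
  rw [e1, e2]
  have h2 : (0 : ℝ) < 2 ^ r := by positivity
  have h3 : (0 : ℝ) < 2 ^ (r + 1) := by positivity
  field_simp
  ring

theorem aw_succ_le (r : ℕ) (hr : 1 ≤ r) : aw (r + 1) ≤ 2 / 3 * aw r := by
  rw [aw_succ, mul_comm]
  apply mul_le_mul_of_nonneg_right _ (aw_pos r).le
  have h : (4 : ℝ) ≤ 2 ^ (r + 1) := by
    calc (4 : ℝ) = 2 ^ 2 := by norm_num
      _ ≤ 2 ^ (r + 1) := pow_le_pow_right₀ (by norm_num) (by omega)
  apply div_le_div_of_nonneg_left (by norm_num) (by norm_num)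
  linarith

theorem aw_le (r : ℕ) : aw r ≤ 3 * (2 / 3) ^ r := by
  induction r with
  | zero => simp
  | succ r ih =>
    rcases Nat.eq_zero_or_pos r with h | h
    · subst h
      rw [aw_succ]
      norm_num
    · calc aw (r + 1) ≤ 2 / 3 * aw r := aw_succ_le r h
        _ ≤ 2 / 3 * (3 * (2 / 3) ^ r) := by gcongr
        _ = 3 * (2 / 3) ^ (r + 1) := by ring

theorem summable_aw : Summable aw :=
  Summable.of_nonneg_of_le (fun r => (aw_pos r).le) aw_le
    ((summable_geometric_of_lt_one (by norm_num) (by norm_num)).mul_left 3)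

theorem summable_aw_mul {x : ℝ} (hx : |x| ≤ 1) : Summable fun r => aw r * x ^ r := by
  apply Summable.of_norm_bounded (g := aw) summable_aw
  intro r
  rw [Real.norm_eq_abs, abs_mul, abs_of_pos (aw_pos r), abs_pow]
  exact mul_le_of_le_one_right (aw_pos r).le (pow_le_one₀ (abs_nonneg x) hx)

/-- The generating function of the weights. -/
noncomputable def gen (x : ℝ) : ℝ := ∑' r, aw r * x ^ r

theorem gen_eq {x : ℝ} (hx : |x| ≤ 1) : gen x = (1 + x) * gen (x / 2) := by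
  have hx2 : |x / 2| ≤ 1 := by
    rw [abs_div, abs_of_pos (by norm_num : (0 : ℝ) < 2)]
    linarith [abs_nonneg x]
  have h1 := summable_aw_mul hx
  have h2 := summable_aw_mul hx2
  have e1 : gen x = 1 + ∑' r, aw (r + 1) * x ^ (r + 1) := by
    unfold gen
    rw [h1.tsum_eq_zero_add]
    simp
  have e2 : gen (x / 2) = 1 + ∑' r, aw (r + 1) * (x / 2) ^ (r + 1) := by
    unfold gen
    rw [h2.tsum_eq_zero_add]
    simp
  have h1' : Summable fun r => aw (r + 1) * x ^ (r + 1) := (summable_nat_add_iff 1).mpr h1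
  have h2' : Summable fun r => aw (r + 1) * (x / 2) ^ (r + 1) := (summable_nat_add_iff 1).mpr h2
  have e3 : x * gen (x / 2) = ∑' r, x * (aw r * (x / 2) ^ r) := by
    unfold gen
    rw [tsum_mul_left]
  have e4 : ∑' r, aw (r + 1) * x ^ (r + 1) =
      ∑' r, aw (r + 1) * (x / 2) ^ (r + 1) + ∑' r, x * (aw r * (x / 2) ^ r) := by
    rw [← h2'.tsum_add (h2.mul_left x)]
    congr 1
    funext r
    have h := aw_rec r
    have e : (x / 2) ^ (r + 1) = (1 / 2) ^ (r + 1) * x ^ (r + 1) := by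
      rw [← mul_pow]; ring
    have e' : (x / 2) ^ r = (1 / 2) ^ r * x ^ r := by
      rw [← mul_pow]; ring
    rw [e, e']
    have e5 : x ^ (r + 1) = x * x ^ r := pow_succ' x r
    rw [e5]
    linear_combination (x * x ^ r) * h
  rw [add_mul, one_mul, e1, e4, e3, e2]
  ring

theorem gen_one_eq (n : ℕ) :
    gen 1 = (∏ j ∈ range n, (1 + (1 / 2 : ℝ) ^ j)) * gen ((1 / 2) ^ n) := by
  induction n with
  | zero => simp
  | succ n ih =>
    rw [ih, prod_range_succ]
    have hx : |(1 / 2 : ℝ) ^ n| ≤ 1 := by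
      rw [abs_of_nonneg (by positivity)]
      exact pow_le_one₀ (by norm_num) (by norm_num)
    rw [gen_eq hx]
    have e : (1 / 2 : ℝ) ^ n / 2 = (1 / 2) ^ (n + 1) := by rw [pow_succ]; ring
    rw [e]
    ring

theorem gen_bound {x : ℝ} (hx0 : 0 ≤ x) (hx1 : x ≤ 1) : |gen x - 1| ≤ x * ∑' r, aw (r + 1) := by
  have hx : |x| ≤ 1 := by rw [abs_of_nonneg hx0]; exact hx1
  have h1 := summable_aw_mul hx
  have h1' : Summable fun r => aw (r + 1) * x ^ (r + 1) := (summable_nat_add_iff 1).mpr h1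
  have hs : Summable fun r => aw (r + 1) := (summable_nat_add_iff 1).mpr summable_aw
  have e1 : gen x = 1 + ∑' r, aw (r + 1) * x ^ (r + 1) := by
    unfold gen
    rw [h1.tsum_eq_zero_add]
    simp
  rw [e1, add_sub_cancel_left, abs_of_nonneg
    (tsum_nonneg fun r => mul_nonneg (aw_pos _).le (pow_nonneg hx0 _)), ← tsum_mul_left]
  refine h1'.tsum_le_tsum (fun r => ?_) (hs.mul_left x)
  rw [mul_comm, pow_succ']
  apply mul_le_mul_of_nonneg_right _ (aw_pos _).le
  calc x * x ^ r ≤ x * 1 := by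
        gcongr
        exact pow_le_one₀ hx0 hx1
    _ = x := mul_one x

theorem tendsto_gen : Tendsto (fun n : ℕ => gen ((1 / 2 : ℝ) ^ n)) atTop (𝓝 1) := by
  have h0 : Tendsto (fun n : ℕ => (1 / 2 : ℝ) ^ n) atTop (𝓝 0) :=
    tendsto_pow_atTop_nhds_zero_of_lt_one (by norm_num) (by norm_num)
  have h1 : Tendsto (fun n : ℕ => (1 / 2 : ℝ) ^ n * ∑' r, aw (r + 1)) atTop (𝓝 0) := by
    simpa using h0.mul_const (∑' r, aw (r + 1))
  rw [tendsto_iff_norm_sub_tendsto_zero]
  refine squeeze_zero (fun n => norm_nonneg _) (fun n => ?_) h1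
  exact gen_bound (by positivity) (pow_le_one₀ (by norm_num) (by norm_num))

theorem multipliable_euler : Multipliable fun j : ℕ => (1 + (1 / 2 : ℝ) ^ j) := by
  apply multipliable_one_add_of_summable
  have h : (fun j : ℕ => ‖(1 / 2 : ℝ) ^ j‖) = fun j : ℕ => (1 / 2 : ℝ) ^ j := by
    funext j
    rw [Real.norm_eq_abs, abs_of_nonneg (by positivity)]
  rw [h]
  exact summable_geometric_of_lt_one (by norm_num) (by norm_num)

theorem hasProd_euler : HasProd (fun j : ℕ => (1 + (1 / 2 : ℝ) ^ j)) eulerP :=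
  multipliable_euler.hasProd

theorem tendsto_euler :
    Tendsto (fun n => ∏ j ∈ range n, (1 + (1 / 2 : ℝ) ^ j)) atTop (𝓝 eulerP) :=
  hasProd_euler.tendsto_prod_nat

/-- Euler's identity at `x = 1`. -/
theorem gen_one : gen 1 = eulerP := by
  have h := tendsto_euler.mul tendsto_gen
  rw [mul_one] at h
  have h' : Tendsto (fun _ : ℕ => gen 1) atTop (𝓝 eulerP) := by
    refine h.congr (fun n => ?_)
    exact (gen_one_eq n).symm
  exact tendsto_nhds_unique tendsto_const_nhds h'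

theorem hasSum_aw : HasSum aw eulerP := by
  have h : ∑' r, aw r = eulerP := by
    rw [← gen_one]
    unfold gen
    simp
  rw [← h]
  exact summable_aw.hasSum

theorem eulerP_pos : 0 < eulerP := by
  rw [← hasSum_aw.tsum_eq]
  exact summable_aw.tsum_pos (fun r => (aw_pos r).le) 0 (aw_pos 0)

/-- Euler's identity at `x = -1`: the alternating sum vanishes. -/
theorem hasSum_alt_aw : HasSum (fun r => (-1 : ℝ) ^ r * aw r) 0 := by
  have hx : |(-1 : ℝ)| ≤ 1 := by norm_num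
  have h := gen_eq hx
  have h' : gen (-1) = 0 := by rw [h]; ring
  have hs := (summable_aw_mul hx).hasSum
  have e : (fun r => aw r * (-1 : ℝ) ^ r) = fun r => (-1 : ℝ) ^ r * aw r := by
    funext r; ring
  have h2 : ∑' r, aw r * (-1 : ℝ) ^ r = 0 := h'
  rw [h2, e] at hs
  exact hs

theorem PR_pos (r : ℕ) : 0 < PR r := mul_pos (inv_pos.mpr eulerP_pos) (aw_pos r)

theorem PR_succ (r : ℕ) : PR (r + 1) = PR r * (2 / (2 ^ (r + 1) - 1)) := by
  rw [PR_eq, PR_eq, aw_succ, mul_assoc]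

/-- The detailed balance equation. -/
theorem PR_rec (r : ℕ) : (1 - (1 / 2 : ℝ) ^ (r + 1)) * PR (r + 1) = (1 / 2 : ℝ) ^ r * PR r := by
  rw [PR_eq, PR_eq]
  have h := aw_rec r
  linear_combination eulerP⁻¹ * h

theorem PR_rec' (r : ℕ) :
    (1 - 1 / (2 : ℝ) ^ (r + 1)) * PR (r + 1) = 1 / (2 : ℝ) ^ r * PR r := by
  have h := PR_rec r
  rwa [one_div, one_div, ← inv_pow, ← inv_pow, ← one_div]

theorem hasSum_PR : HasSum PR 1 := by
  have h := hasSum_aw.mul_left eulerP⁻¹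
  rw [inv_mul_cancel₀ eulerP_pos.ne'] at h
  exact h

theorem summable_PR : Summable PR := hasSum_PR.summable

theorem tsum_PR : ∑' r, PR r = 1 := hasSum_PR.tsum_eq

theorem hasSum_alt_PR : HasSum (fun r => (-1 : ℝ) ^ r * PR r) 0 := by
  have h := hasSum_alt_aw.mul_left eulerP⁻¹
  rw [mul_zero] at h
  have e : (fun r => eulerP⁻¹ * ((-1 : ℝ) ^ r * aw r)) = fun r => (-1 : ℝ) ^ r * PR r := by
    funext r
    rw [PR_eq]; ring
  rwa [e] at h

theorem tsum_alt_PR : ∑' r, (-1 : ℝ) ^ r * PR r = 0 := hasSum_alt_PR.tsum_eq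

/-- The even part and the odd part have mass `1/2`. -/
theorem hasSum_parity (s : ℕ) : HasSum (fun r => if r % 2 = s % 2 then PR r else 0) (1 / 2) := by
  have h := (hasSum_PR.add (hasSum_alt_PR.mul_left ((-1 : ℝ) ^ s))).mul_left (1 / 2)
  rw [mul_zero, add_zero, mul_one] at h
  have e : (fun r => (1 / 2 : ℝ) * (PR r + (-1 : ℝ) ^ s * ((-1 : ℝ) ^ r * PR r))) =
      fun r => if r % 2 = s % 2 then PR r else 0 := by
    funext r
    rw [← mul_assoc, ← pow_add]
    split_ifs with hp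
    · have hev : Even (s + r) := by rw [Nat.even_iff]; omega
      rw [hev.neg_one_pow]; ring
    · have hod : Odd (s + r) := by rw [Nat.odd_iff]; omega
      rw [hod.neg_one_pow]; ring
  rwa [e] at h

theorem tsum_parity (s : ℕ) : ∑' r, (if r % 2 = s % 2 then PR r else 0) = 1 / 2 :=
  (hasSum_parity s).tsum_eq

theorem PR_le (r : ℕ) : PR r ≤ PR 0 * (3 * (2 / 3) ^ r) := by
  rw [PR_eq, PR_eq, aw_zero, mul_one]
  exact mul_le_mul_of_nonneg_left (aw_le r) (inv_pos.mpr eulerP_pos).le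

theorem aw_half (r : ℕ) (hr : 2 ≤ r) : aw (r + 1) ≤ 1 / 2 * aw r := by
  rw [aw_succ, mul_comm]
  apply mul_le_mul_of_nonneg_right _ (aw_pos r).le
  have h : (8 : ℝ) ≤ 2 ^ (r + 1) := by
    calc (8 : ℝ) = 2 ^ 3 := by norm_num
      _ ≤ 2 ^ (r + 1) := pow_le_pow_right₀ (by norm_num) (by omega)
  rw [div_le_div_iff₀ (by linarith) (by norm_num)]
  linarith

theorem aw_six : aw 6 = 64 / 615195 := by
  simp only [aw, prod_range_succ, prod_range_zero]
  norm_num

theorem aw_tail_le (n : ℕ) : aw (n + 6) ≤ 64 / 615195 * (1 / 2) ^ n := by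
  induction n with
  | zero => simp [aw_six]
  | succ n ih =>
    have h := aw_half (n + 6) (by omega)
    calc aw (n + 1 + 6) = aw (n + 6 + 1) := by congr 1
      _ ≤ 1 / 2 * aw (n + 6) := h
      _ ≤ 1 / 2 * (64 / 615195 * (1 / 2) ^ n) := by gcongr
      _ = 64 / 615195 * (1 / 2) ^ (n + 1) := by ring

theorem sum_range_six : ∑ r ∈ range 6, aw r = 1 + 2 + 4 / 3 + 8 / 21 + 16 / 315 + 32 / 9765 := by
  simp only [aw, sum_range_succ, sum_range_zero, prod_range_succ, prod_range_zero]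
  norm_num

theorem eulerP_bounds : (4.7683 : ℝ) < eulerP ∧ eulerP < 4.7686 := by
  have hs := summable_aw
  have h := hs.sum_add_tsum_nat_add 6
  have ht : Summable fun n => aw (n + 6) := (summable_nat_add_iff 6).mpr hs
  have h0 : 0 ≤ ∑' n, aw (n + 6) := tsum_nonneg fun n => (aw_pos _).le
  have hg : Summable fun n : ℕ => (64 / 615195 : ℝ) * (1 / 2) ^ n :=
    (summable_geometric_of_lt_one (by norm_num) (by norm_num)).mul_left _
  have h1 : ∑' n, aw (n + 6) ≤ ∑' n : ℕ, (64 / 615195 : ℝ) * (1 / 2) ^ n :=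
    ht.tsum_le_tsum aw_tail_le hg
  have h2 : ∑' n : ℕ, (64 / 615195 : ℝ) * (1 / 2) ^ n = 64 / 615195 * 2 := by
    rw [tsum_mul_left, tsum_geometric_of_lt_one (by norm_num) (by norm_num)]
    norm_num
  rw [hasSum_aw.tsum_eq, sum_range_six] at h
  constructor
  · norm_num at h ⊢
    linarith
  · rw [h2] at h1
    norm_num at h h1 ⊢
    linarith

theorem PR_zero : PR 0 = eulerP⁻¹ := by rw [PR_eq, aw_zero, mul_one]

theorem PR_zero_bounds : (0.2097 : ℝ) < PR 0 ∧ PR 0 < 0.2098 := by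
  obtain ⟨h1, h2⟩ := eulerP_bounds
  rw [PR_zero]
  constructor
  · rw [lt_inv_comm₀ (by norm_num) eulerP_pos]
    refine h2.trans ?_
    norm_num
  · rw [inv_lt_comm₀ eulerP_pos (by norm_num)]
    refine lt_trans ?_ h1
    norm_num

theorem PR_one : PR 1 = 2 * PR 0 := by
  rw [PR_succ]; norm_num; ring

theorem PR_one_bounds : (0.4194 : ℝ) < PR 1 ∧ PR 1 < 0.4196 := by
  obtain ⟨h1, h2⟩ := PR_zero_bounds
  rw [PR_one]
  constructor
  · norm_num at h1 ⊢; linarith
  · norm_num at h2 ⊢; linarith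

theorem PR_zero_add_one : (0.629 : ℝ) < PR 0 + PR 1 := by
  obtain ⟨h1, h2⟩ := PR_zero_bounds
  rw [PR_one]
  norm_num at h1 ⊢
  linarith

theorem PR_le_one (r : ℕ) : PR r ≤ 1 := by
  rw [← tsum_PR]
  exact summable_PR.le_tsum r fun i _ => (PR_pos i).le

end Pool.PRD
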